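import Pool.Agent.J6H27.KS.Main
import Pool.Agent.J6H27.KS.Univ

/-!
# Agreement on simple formulas and agreement on all inputs, scale by scale
-/

set_option autoImplicit false

namespace Pool.Agent.J6H29.KA

open Pool.Agent.NPC Pool.Agent.H695R2 Pool.Agent.H695R2.IsoImp Pool.Agent.H660R2.NX Turing
open Pool.Agent.J6H27.KS Filter

/-- **Local transfer.** For every `S` in `P` and `L` in `NP` there is `S'` in `P`, contained in `L`, such that `S' = L`
on the lengths in `[n, m]` if `S = SAT` on the simple strings of the lengths in `[n, m ^ k]`. -/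
theorem transfer {U : Mach} {c : ℕ}
    (hU : ∀ M : Mach, ∃ (code : List Bool → List Bool) (d : ℕ) (q : Polynomial ℕ),
      (∀ y, (code y).length ≤ c * y.length + d) ∧
      ∀ y x t, M.Outputs y x t → U.Outputs (code y) x (q.eval (y.length + t)))
    {g G : ℕ → ℕ}
    (hg : ∀ᶠ n in atTop, (4 * c + 1) * Nat.log 2 (Nat.log 2 (Nat.log 2 n)) ≤ g n)
    (hG : ∀ k : ℕ, ∀ᶠ n in atTop, n ^ k ≤ G n)
    {S L : Set (List Bool)} (hS : InP S) (hL : InNP L) :
    ∃ (S' : Set (List Bool)) (k : ℕ), InP S' ∧ S' ⊆ L ∧ ∀ n m : ℕ, 2 ≤ n →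
      (∀ x ∈ K U g G, n ≤ x.length → x.length ≤ m ^ k → (x ∈ S ↔ x ∈ J6H27.KS.SAT)) →
        ∀ x : List Bool, n ≤ x.length → x.length ≤ m → (x ∈ S' ↔ x ∈ L) := by
  obtain ⟨VS, hVS, hS⟩ := hS
  -- the test
  let s : BF → Bool := fun φ => decide (VS (bits φ) = [true])
  have hs : Poly s := by
    have h0 : PC (bits : BF → List Bool) (fun x : List Bool => x) (fun φ => bits φ) := by
      obtain ⟨c, p, h⟩ := PC.id (ea := (bits : BF → List Bool))
      exact ⟨c, p, h⟩
    have h1 : Poly (fun φ : BF => (bits φ : List Bool)) :=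
      PC.comp (g := fun x => x) (f := fun φ : BF => (bits φ : List Bool)) PC.rawIn h0
    exact Poly.dec_eq ((poly_of_polyTime hVS).comp h1) (NPC.Poly.const _)
  have hsS : ∀ φ : BF, s φ = true ↔ bits φ ∈ S := by
    intro φ
    simp only [s, decide_eq_true_eq]
    exact (hS _).symm
  obtain ⟨V, p, hV, hL⟩ := hL
  have hV' := poly_of_polyTime hV
  obtain ⟨FA, hFA, hFA'⟩ := exists_family (poly_WA V p hV') (upoly_lenA p)
  obtain ⟨FB, hFB, hFB'⟩ := exists_family (poly_WB (p := p) hV' hs hFA) (upoly_lenB (p := p))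
  have hH := poly_hard (p := p) hs hFA hFB
  obtain ⟨j₀, hj₀⟩ := mem_K hU hg hG hH length_hard
  obtain ⟨r, hr⟩ := hH.sz_le
  -- the algorithm
  have hd : Poly (fun a : List Bool => algA V p s FA (List.replicate (dsq j₀ a.length) (), a)) :=
    (poly_algA hV' hs hFA).comp (Poly.pair (upoly_dsq j₀) Poly.id)
  obtain ⟨k, hk⟩ := poly_le_pow (r.comp (Polynomial.C 2 * (Polynomial.C (2 ^ 2 ^ j₀) +
    Polynomial.X * Polynomial.X) + Polynomial.C 20))
  refine ⟨{a | algA V p s FA (List.replicate (dsq j₀ a.length) (), a) = true}, k,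
    ⟨_, polyTime_of_poly hd, fun a => ?_⟩, fun a ha => WA_sound hL ha, fun n m hn hK a hna ham =>
      ⟨fun ha => WA_sound hL ha, fun ha => ?_⟩⟩
  · simp only [List.cons.injEq, and_true, Set.mem_setOf_eq]
  · obtain ⟨j, hj, e⟩ := dsq_spec j₀ a.length
    refine no_counterexample hL hFA' hFB' ?_ ?_ ha
    · intro b τ hτ
      have hτ1 : τ.length ≤ 1 := by
        simp only [List.mem_cons, List.not_mem_nil, or_false] at hτ
        rcases hτ with rfl | rfl | rfl <;> simp
      set φ := hard p s FA FB (List.replicate (dsq j₀ a.length) (), b, τ) with hφ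
      have h1 : bits φ ∈ K U g G := by
        rw [hφ, e]
        exact hj₀ j hj b τ hτ1
      have h2 : a.length ≤ (bits φ).length := by
        have := length_hard (p := p) (s := s) (FA := FA) (FB := FB)
          (List.replicate (dsq j₀ a.length) (), b, τ)
        simp only [List.length_replicate] at this
        exact (le_dsq j₀ a.length).trans this
      have h3 : (bits φ).length ≤ m ^ k := by
        rw [bits_length]
        have e1 := hr (List.replicate (dsq j₀ a.length) (), b, τ)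
        rw [← hφ] at e1
        have e2 := hk a.length (hn.trans hna)
        have e3 : dsq j₀ a.length ≤ 2 ^ 2 ^ j₀ + a.length * a.length :=
          (dsq_aux j₀ a.length a.length).2.2
        have e4 : sz (List.replicate (dsq j₀ a.length) (), b, τ) ≤
            2 * (2 ^ 2 ^ j₀ + a.length * a.length) + 20 := by
          have hsb := sz_bool_le b
          have hsτ := sz_listBool_le τ
          rw [sz_pair, sz_pair, sz_units]
          omega
        have e5 := eval_mono r e4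
        have e6 : a.length ^ k ≤ m ^ k := Nat.pow_le_pow_left ham k
        simp only [Polynomial.eval_comp, Polynomial.eval_add, Polynomial.eval_mul,
          Polynomial.eval_C, Polynomial.eval_X] at e2
        omega
      have h4 := hK (bits φ) h1 (hna.trans h2) h3
      have h5 : bits φ ∈ J6H27.KS.SAT ↔ Sat φ := bits_mem_lang
      rw [hsS, h4, h5]
    · rw [List.length_replicate]
      exact le_dsq _ _

/-- **Hardness at all scales.** Every `S` in `P` differs from `L` at some string of the set `A` in each window of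
lengths `[n, n ^ c]`, for all large `n`; here `c` may depend on `S`. -/
def HardOn (L A : Set (List Bool)) : Prop :=
  ∀ S : Set (List Bool), InP S → ∃ c : ℕ, ∀ᶠ n : ℕ in atTop,
    ∃ x ∈ A, n ≤ x.length ∧ x.length ≤ n ^ c ∧ ¬ (x ∈ S ↔ x ∈ L)

/-- **Inseparability at all scales** of `A ∩ SAT` and the complement of `SAT`: every `S` in `P` which is disjoint from
the complement of `SAT` misses some string of `A ∩ SAT` in each window of lengths `[n, n ^ c]`, for all large `n`;
here `c` may depend on `S`. -/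
def InseparableAtAllScales (A : Set (List Bool)) : Prop :=
  ∀ S : Set (List Bool), InP S → S ∩ J6H27.KS.SATᶜ = ∅ → ∃ c : ℕ, ∀ᶠ n : ℕ in atTop,
    ∃ x ∈ A ∩ J6H27.KS.SAT, n ≤ x.length ∧ x.length ≤ n ^ c ∧ x ∉ S

theorem HardOn.mono {L A A' : Set (List Bool)} (h : HardOn L A) (hA : A ⊆ A') : HardOn L A' := by
  intro S hS
  obtain ⟨c, hc⟩ := h S hS
  exact ⟨c, hc.mono fun n ⟨x, hx, h⟩ => ⟨x, hA hx, h⟩⟩

theorem HardOn.inseparable {A : Set (List Bool)} (h : HardOn J6H27.KS.SAT A) :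
    InseparableAtAllScales A := by
  intro S hS hS'
  obtain ⟨c, hc⟩ := h S hS
  refine ⟨c, hc.mono fun n ⟨x, hx, h1, h2, h3⟩ => ?_⟩
  have h4 : x ∈ S → x ∈ J6H27.KS.SAT := by
    intro h5
    by_contra h6
    have : x ∈ S ∩ J6H27.KS.SATᶜ := ⟨h5, h6⟩
    rw [hS'] at this
    exact this
  have h5 : x ∈ J6H27.KS.SAT := by
    by_contra h6
    exact h3 ⟨h4, fun h => absurd h h6⟩
  exact ⟨x, ⟨hx, h5⟩, h1, h2, fun h6 => h3 ⟨h4, fun _ => h6⟩⟩

theorem main {U : Mach} {c : ℕ}
    (hU : ∀ M : Mach, ∃ (code : List Bool → List Bool) (d : ℕ) (q : Polynomial ℕ),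
      (∀ y, (code y).length ≤ c * y.length + d) ∧
      ∀ y x t, M.Outputs y x t → U.Outputs (code y) x (q.eval (y.length + t)))
    {g G : ℕ → ℕ}
    (hg : ∀ᶠ n in atTop, (4 * c + 1) * Nat.log 2 (Nat.log 2 (Nat.log 2 n)) ≤ g n)
    (hG : ∀ k : ℕ, ∀ᶠ n in atTop, n ^ k ≤ G n) {L : Set (List Bool)} (hL : InNP L)
    (h : HardOn L Set.univ) : HardOn J6H27.KS.SAT (K U g G) := by
  intro S hS
  obtain ⟨S', k, hS', -, hT⟩ := transfer hU hg hG hS hL
  obtain ⟨b, hb⟩ := h S' hS'
  refine ⟨b * k, (hb.and (eventually_ge_atTop 2)).mono ?_⟩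
  rintro n ⟨⟨x, -, h1, h2, h3⟩, hn⟩
  by_contra hcon
  push Not at hcon
  refine h3 (hT n (n ^ b) hn (fun y hy h4 h5 => ?_) x h1 h2)
  rw [← pow_mul] at h5
  exact hcon y hy h4 h5

theorem main_one {U : Mach} {c : ℕ}
    (hU : ∀ M : Mach, ∃ (code : List Bool → List Bool) (d : ℕ) (q : Polynomial ℕ),
      (∀ y, (code y).length ≤ c * y.length + d) ∧
      ∀ y x t, M.Outputs y x t → U.Outputs (code y) x (q.eval (y.length + t)))
    {g G : ℕ → ℕ}
    (hg : ∀ᶠ n in atTop, (4 * c + 1) * Nat.log 2 (Nat.log 2 (Nat.log 2 n)) ≤ g n)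
    (hG : ∀ k : ℕ, ∀ᶠ n in atTop, n ^ k ≤ G n)
    (h : InseparableAtAllScales (K U g G)) : HardOn J6H27.KS.SAT (K U g G) := by
  intro S hS
  obtain ⟨S', k, hS', hsub, hT⟩ := transfer hU hg hG hS inNP_SAT
  obtain ⟨b, hb⟩ := h S' hS' (by
    ext x
    simp only [Set.mem_inter_iff, Set.mem_compl_iff, Set.mem_empty_iff_false, iff_false, not_and,
      not_not]
    exact fun hx => hsub hx)
  refine ⟨b * k, (hb.and (eventually_ge_atTop 2)).mono ?_⟩
  rintro n ⟨⟨x, ⟨-, hx⟩, h1, h2, h3⟩, hn⟩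
  by_contra hcon
  push Not at hcon
  refine h3 ((hT n (n ^ b) hn (fun y hy h4 h5 => ?_) x h1 h2).2 hx)
  rw [← pow_mul] at h5
  exact hcon y hy h4 h5

/-- the three forms of hardness at all scales are equivalent -/
theorem equiv {U : Mach} {c : ℕ}
    (hU : ∀ M : Mach, ∃ (code : List Bool → List Bool) (d : ℕ) (q : Polynomial ℕ),
      (∀ y, (code y).length ≤ c * y.length + d) ∧
      ∀ y x t, M.Outputs y x t → U.Outputs (code y) x (q.eval (y.length + t)))
    {g G : ℕ → ℕ}
    (hg : ∀ᶠ n in atTop, (4 * c + 1) * Nat.log 2 (Nat.log 2 (Nat.log 2 n)) ≤ g n)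
    (hG : ∀ k : ℕ, ∀ᶠ n in atTop, n ^ k ≤ G n) :
    (InseparableAtAllScales (K U g G) ↔ ∃ L, InNP L ∧ HardOn L Set.univ) ∧
      (HardOn J6H27.KS.SAT (K U g G) ↔ ∃ L, InNP L ∧ HardOn L Set.univ) := by
  refine ⟨⟨fun h => ?_, ?_⟩, ⟨fun h => ⟨J6H27.KS.SAT, inNP_SAT, h.mono (Set.subset_univ _)⟩, ?_⟩⟩
  · exact ⟨J6H27.KS.SAT, inNP_SAT, (main_one hU hg hG h).mono (Set.subset_univ _)⟩
  · rintro ⟨L, hL, h⟩
    exact (main hU hg hG hL h).inseparable
  · rintro ⟨L, hL, h⟩
    exact main hU hg hG hL h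

end Pool.Agent.J6H29.KA
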